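import Pool.Agent.Y44.SY.Imm
import Pool.Agent.Y44.SY.QB

/-!
# An embedding is locally anti-Lipschitz in the charts
-/

set_option autoImplicit false

open Set Filter Topology MeasureTheory
open scoped Manifold ContDiff Pointwise

noncomputable section

namespace Pool.Agent.Q235.SZ

open Pool.Agent.Y501.SY Pool.Agent.Y455.SY

theorem exists_min' {Z : Type} [TopologicalSpace Z] {K : Set Z} (hK : IsCompact K) {q : Z → ℝ}
    (hq : ContinuousOn q K) (hpos : ∀ z ∈ K, 0 < q z) : ∃ c, 0 < c ∧ ∀ z ∈ K, c ≤ q z := by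
  rcases K.eq_empty_or_nonempty with rfl | hne
  · exact ⟨1, one_pos, by simp⟩
  · obtain ⟨z, hz, hmin⟩ := hK.exists_isMinOn hne hq
    exact ⟨q z, hpos z hz, fun w hw => hmin hw⟩

section

variable {d m : ℕ} {X : Type} [TopologicalSpace X] [ChartedSpace (E d) X] [IsManifold (𝓡 d) ∞ X]

theorem anti {F : X → E m} (hF : ContMDiff (𝓡 d) (𝓡 m) ∞ F)
    (hFd : ∀ x, Function.Injective (mfderiv (𝓡 d) (𝓡 m) F x)) (z : X) :
    ∃ δ Λ : ℝ, 0 < δ ∧ 0 < Λ ∧ ∀ p ∈ Metric.ball (chartAt (E d) z z) δ,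
      ∀ q ∈ Metric.ball (chartAt (E d) z z) δ,
      ‖p - q‖ ≤ Λ * ‖F ((chartAt (E d) z).symm p) - F ((chartAt (E d) z).symm q)‖ := by
  obtain ⟨c, hc⟩ : ∃ c, c = chartAt (E d) z := ⟨_, rfl⟩
  obtain ⟨p₀, hp₀⟩ : ∃ p₀, p₀ = chartAt (E d) z z := ⟨_, rfl⟩
  have hp₀t : p₀ ∈ (chartAt (E d) z).target := by rw [hp₀]; exact mem_chart_target (E d) z
  rw [← hp₀]
  obtain ⟨G, hG⟩ : ∃ G : E d → E m, G = F ∘ (chartAt (E d) z).symm := ⟨_, rfl⟩
  have hG1 : ContMDiffOn (𝓡 d) (𝓡 m) ∞ G (chartAt (E d) z).target := by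
    rw [hG]
    exact hF.comp_contMDiffOn contMDiffOn_chart_symm
  have hG2 : ContDiffOn ℝ ∞ G (chartAt (E d) z).target := contMDiffOn_iff_contDiffOn.1 hG1
  have hG3 : ContDiffAt ℝ ∞ G p₀ :=
    hG2.contDiffAt ((chartAt (E d) z).open_target.mem_nhds hp₀t)
  have hG4 : HasStrictFDerivAt G (fderiv ℝ G p₀) p₀ := hG3.hasStrictFDerivAt (by simp)
  obtain ⟨a, b, ha, hb, hab⟩ := Pool.Agent.Y44.SY.t_IMM d m X F hF hFd z {p₀} isCompact_singleton
    (singleton_subset_iff.2 hp₀t)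
  have hlow : ∀ v : E d, a * ‖v‖ ≤ ‖fderiv ℝ G p₀ v‖ := by
    intro v
    have h0 := (hab p₀ rfl v).1
    have h1 : MDifferentiableAt (𝓡 d) (𝓡 m) F ((chartAt (E d) z).symm p₀) :=
      hF.mdifferentiableAt (by simp)
    have h2 : MDifferentiableAt (𝓡 d) (𝓡 d) (chartAt (E d) z).symm p₀ :=
      ((contMDiffOn_chart_symm (n := ∞)).contMDiffAt
        ((chartAt (E d) z).open_target.mem_nhds hp₀t)).mdifferentiableAt (by simp)
    have h3 : mfderiv (𝓡 d) (𝓡 m) (F ∘ (chartAt (E d) z).symm) p₀ =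
      (mfderiv (𝓡 d) (𝓡 m) F ((chartAt (E d) z).symm p₀)).comp
      (mfderiv (𝓡 d) (𝓡 d) (chartAt (E d) z).symm p₀) := mfderiv_comp p₀ h1 h2
    have h4 : mfderiv (𝓡 d) (𝓡 m) G p₀ = fderiv ℝ G p₀ := mfderiv_eq_fderiv
    rw [← h4, hG, h3]
    exact h0
  have h5 := hG4.isLittleO.def (half_pos ha)
  rw [nhds_prod_eq] at h5
  obtain ⟨δ, hδ, h6⟩ := ((Metric.nhds_basis_ball.prod_self).eventually_iff).1 h5
  refine ⟨δ, 2 / a, hδ, by positivity, fun p hp q hq => ?_⟩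
  have h7 : ‖G p - G q - fderiv ℝ G p₀ (p - q)‖ ≤ a / 2 * ‖p - q‖ := h6 (x := (p, q)) ⟨hp, hq⟩
  have h8 := hlow (p - q)
  have h9 : ‖fderiv ℝ G p₀ (p - q)‖ ≤ ‖G p - G q‖ + ‖G p - G q - fderiv ℝ G p₀ (p - q)‖ := by
    have := norm_sub_le (G p - G q) (G p - G q - fderiv ℝ G p₀ (p - q))
    rwa [sub_sub_cancel] at this
  have h10 : a / 2 * ‖p - q‖ ≤ ‖G p - G q‖ := by linarith
  have h11 : ‖G p - G q‖ = ‖F ((chartAt (E d) z).symm p) - F ((chartAt (E d) z).symm q)‖ := by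
    rw [hG]; rfl
  rw [← h11, div_mul_eq_mul_div, le_div_iff₀ ha]
  linarith

omit [IsManifold (𝓡 d) ∞ X] in
/-- points with close images are close in the chart -/
theorem close [CompactSpace X] [T2Space X] {F : X → E m} (hF : Continuous F)
    (hFi : Function.Injective F) (z : X) {δ : ℝ} (hδ : 0 < δ)
    (hδt : Metric.closedBall (chartAt (E d) z z) δ ⊆ (chartAt (E d) z).target) :
    ∃ ρ : ℝ, 0 < ρ ∧ ∀ x ∈ (chartAt (E d) z).source,
      chartAt (E d) z x ∈ Metric.closedBall (chartAt (E d) z z) (δ / 2) → ∀ y : X,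
      ‖F y - F x‖ < ρ → y ∈ (chartAt (E d) z).source ∧
        chartAt (E d) z y ∈ Metric.ball (chartAt (E d) z z) δ := by
  obtain ⟨p₀, hp₀⟩ : ∃ p₀, p₀ = chartAt (E d) z z := ⟨_, rfl⟩
  rw [← hp₀] at hδt ⊢
  obtain ⟨O, hO⟩ : ∃ O, O = (chartAt (E d) z).source ∩ chartAt (E d) z ⁻¹' Metric.ball p₀ δ :=
    ⟨_, rfl⟩
  have hOo : IsOpen O := by
    rw [hO]
    exact (chartAt (E d) z).isOpen_inter_preimage Metric.isOpen_ball
  obtain ⟨N, hN⟩ : ∃ N, N = (chartAt (E d) z).symm '' Metric.closedBall p₀ (δ / 2) := ⟨_, rfl⟩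
  have hb2 : Metric.closedBall p₀ (δ / 2) ⊆ (chartAt (E d) z).target :=
    (Metric.closedBall_subset_closedBall (by linarith)).trans hδt
  have hNc : IsCompact N := by
    rw [hN]
    exact (isCompact_closedBall _ _).image_of_continuousOn
      ((chartAt (E d) z).continuousOn_symm.mono hb2)
  have hNO : N ⊆ O := by
    rw [hN, hO]
    rintro _ ⟨p, hp, rfl⟩
    refine ⟨(chartAt (E d) z).map_target (hb2 hp), ?_⟩
    rw [mem_preimage, (chartAt (E d) z).right_inv (hb2 hp)]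
    exact Metric.closedBall_subset_ball (by linarith) hp
  have hmemN : ∀ x ∈ (chartAt (E d) z).source, chartAt (E d) z x ∈ Metric.closedBall p₀ (δ / 2) →
      x ∈ N := by
    intro x hx hx2
    rw [hN]
    exact ⟨_, hx2, (chartAt (E d) z).left_inv hx⟩
  have hK : IsCompact (Oᶜ ×ˢ N) := hOo.isClosed_compl.isCompact.prod hNc
  have hcont : ContinuousOn (fun w : X × X => ‖F w.1 - F w.2‖) (Oᶜ ×ˢ N) :=
    ((hF.comp continuous_fst).sub (hF.comp continuous_snd)).norm.continuousOn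
  obtain ⟨ρ, hρ, hmin⟩ := exists_min' hK hcont (by
    rintro ⟨y, x⟩ ⟨hy, hx⟩
    refine norm_pos_iff.2 (sub_ne_zero.2 fun h => hy ?_)
    have : y = x := hFi h
    rw [this]
    exact hNO hx)
  refine ⟨ρ, hρ, fun x hx hx2 y hy => ?_⟩
  have hyO : y ∈ O := by
    by_contra h
    have := hmin (y, x) ⟨h, hmemN x hx hx2⟩
    dsimp only at this
    linarith
  rw [hO] at hyO
  exact hyO

end

end Pool.Agent.Q235.SZ
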