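import Pool.Agent.Q235.SQ.PshU
import Pool.Agent.Y484.SY.Gen
import Pool.Agent.Y455.SY.Pert
import Pool.Agent.Y501.SY.PairL

/-!
# Extending the exact form with logarithmic potential from a chart to the manifold
-/

set_option autoImplicit false

open Set Filter Topology MeasureTheory
open scoped Manifold ContDiff Pointwise

noncomputable section

namespace Pool.Agent.Q235.SZ

open Pool.Agent.Y501.SY Pool.Agent.Y484.SY

section

variable {d : ℕ}

/-- the coefficients of the one-form `h W(x - c, ·)` -/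
def cf (J : E d →L[ℝ] E d) (c : E d) (h : E d → ℝ) (j : Fin d) (p : E d) : ℝ :=
  h p * W J (p - c) (EuclideanSpace.single j (1 : ℝ))

theorem cf_smooth {J : E d →L[ℝ] E d} {c : E d} {h : E d → ℝ} (hh : ContDiff ℝ ∞ h) (j : Fin d) :
    ContDiff ℝ ∞ (cf J c h j) := by
  have h1 : ContDiff ℝ ∞ (fun p : E d => W J (p - c)) :=
    (W J).contDiff.comp (contDiff_id.sub contDiff_const)
  exact hh.mul (h1.clm_apply contDiff_const)

theorem cf_fderiv {J : E d →L[ℝ] E d} {c : E d} {h : E d → ℝ} (hh : ContDiff ℝ ∞ h) (j : Fin d)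
    (x u : E d) : fderiv ℝ (cf J c h j) x u =
      fderiv ℝ h x u * W J (x - c) (EuclideanSpace.single j (1 : ℝ)) +
        h x * W J u (EuclideanSpace.single j (1 : ℝ)) := by
  have h3 : HasFDerivAt h (fderiv ℝ h x) x := (hh.differentiable (by simp) x).hasFDerivAt
  have h4 : HasFDerivAt (fun p => W J (p - c)) ((W J).comp (ContinuousLinearMap.id ℝ (E d))) x :=
    (W J).hasFDerivAt.comp x ((hasFDerivAt_id x).sub_const c)
  have h5 := h3.mul (h4.clm_apply (hasFDerivAt_const (EuclideanSpace.single j (1 : ℝ)) x))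
  have h6 : fderiv ℝ (cf J c h j) x = _ := h5.fderiv
  rw [h6]
  simp
  ring

theorem sum_single (T : E d →L[ℝ] ℝ) (v : E d) :
    ∑ j, T (EuclideanSpace.single j (1 : ℝ)) * v j = T v := by
  have h1 : v = ∑ j, v j • (EuclideanSpace.single j (1 : ℝ) : E d) := by
    ext i
    simp [Finset.sum_apply, Pi.single_apply]
  conv_rhs => rw [h1, map_sum]
  refine Finset.sum_congr rfl fun j _ => ?_
  rw [map_smul, smul_eq_mul, mul_comm]

theorem tau_eq {J : E d →L[ℝ] E d} {c : E d} {h : E d → ℝ} (hh : ContDiff ℝ ∞ h) (x : E d) :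
    tau J c h x = ∑ j, wedge (fderiv ℝ (cf J c h j) x) (EuclideanSpace.proj (𝕜 := ℝ) j) := by
  ext v
  have hv : v = ![v 0, v 1] := by
    funext i
    fin_cases i <;> rfl
  rw [hv, tau_apply hh, ContinuousAlternatingMap.sum_apply]
  have h1 : ∀ j, wedge (fderiv ℝ (cf J c h j) x) (EuclideanSpace.proj (𝕜 := ℝ) j)
      ![v 0, v 1] = (fderiv ℝ h x (v 0) * (W J (x - c) (EuclideanSpace.single j (1 : ℝ)) * (v 1) j)
      + h x * (W J (v 0) (EuclideanSpace.single j (1 : ℝ)) * (v 1) j)) -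
      (fderiv ℝ h x (v 1) * (W J (x - c) (EuclideanSpace.single j (1 : ℝ)) * (v 0) j)
      + h x * (W J (v 1) (EuclideanSpace.single j (1 : ℝ)) * (v 0) j)) := by
    intro j
    rw [wedge_apply]
    have e1 : (![v 0, v 1] : Fin 2 → E d) 0 = v 0 := rfl
    have e2 : (![v 0, v 1] : Fin 2 → E d) 1 = v 1 := rfl
    have e3 : ∀ w : E d, (EuclideanSpace.proj (𝕜 := ℝ) j : E d →L[ℝ] ℝ) w = w j := fun w => rfl
    rw [e1, e2, e3, e3, cf_fderiv hh, cf_fderiv hh]
    ring
  rw [Finset.sum_congr rfl fun j _ => h1 j, Finset.sum_sub_distrib, Finset.sum_add_distrib,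
    Finset.sum_add_distrib, ← Finset.mul_sum, ← Finset.mul_sum, ← Finset.mul_sum,
    ← Finset.mul_sum, sum_single, sum_single, sum_single, sum_single, W_swap J (v 1) (v 0)]
  ring

theorem tau_zero {J : E d →L[ℝ] E d} {c : E d} {h : E d → ℝ} (hh : ContDiff ℝ ∞ h) {S : Set (E d)}
    (hS : IsClosed S) (h0 : ∀ p, p ∉ S → h p = 0) {x : E d} (hx : x ∉ S) :
    tau J c h x = 0 ∧ ∀ j, fderiv ℝ (cf J c h j) x = 0 := by
  have h1 : h =ᶠ[𝓝 x] fun _ => 0 := by
    filter_upwards [hS.isOpen_compl.mem_nhds hx] with y hy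
    exact h0 y hy
  have h2 : fderiv ℝ h x = 0 := by
    rw [h1.fderiv_eq]
    simp
  have h3 : h x = 0 := h0 x hx
  constructor
  · have h4 := tau_norm (J := J) (c := c) hh x
    rw [h2, h3, norm_zero, zero_mul, abs_zero, add_zero, mul_zero] at h4
    exact norm_le_zero_iff.1 h4
  · intro j
    ext u
    rw [cf_fderiv hh, h2, h3]
    simp

end

section

variable {d : ℕ} {X : Type} [TopologicalSpace X] [ChartedSpace (E d) X] [IsManifold (𝓡 d) ∞ X]

omit [IsManifold (𝓡 d) ∞ X] in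
theorem pb_sum {ι : Type} (s : Finset ι) (φ : E d → X) (η : ι → Form d X 2) (p : E d) :
    pb φ (∑ i ∈ s, η i) p = ∑ i ∈ s, pb φ (η i) p := by
  classical
  induction s using Finset.induction_on with
  | empty =>
    rw [Finset.sum_empty, Finset.sum_empty, pb_zero]
    rfl
  | insert a s ha ih =>
    rw [Finset.sum_insert ha, Finset.sum_insert ha, pb_add, Pi.add_apply, ih]

theorem ext_chart [T2Space X] (z : X) (f : SmoothBumpFunction (𝓡 d) z) {U₁ : Set (E d)}
    (hU₁ : IsOpen U₁) (hf1 : ∀ p ∈ U₁, f ((chartAt (E d) z).symm p) = 1) (J : E d →L[ℝ] E d)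
    (c : E d) {h : E d → ℝ} (hh : ContDiff ℝ ∞ h) {S : Set (E d)} (hS : IsClosed S)
    (hSU : S ⊆ U₁) (h0 : ∀ p, p ∉ S → h p = 0) :
    ∃ (α : Form d X 1) (η : Form d X 2), Pair α η ∧
      (∀ p ∈ (chartAt (E d) z).target, pb (chartAt (E d) z).symm η p = tau J c h p) ∧
      ∀ y, y ∉ (chartAt (E d) z).source → η y = 0 := by
  obtain ⟨e, he⟩ : ∃ e, e = chartAt (E d) z := ⟨_, rfl⟩
  obtain ⟨a, ha⟩ : ∃ a : Fin d → X → ℝ, a = fun j y => f y • cf J c h j (chartAt (E d) z y) :=
    ⟨_, rfl⟩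
  obtain ⟨b, hb⟩ : ∃ b : Fin d → X → ℝ, b = fun j y => f y • (chartAt (E d) z y) j := ⟨_, rfl⟩
  have has : ∀ j, SmoothFun (d := d) (a j) := by
    intro j
    rw [ha]
    refine f.contMDiff_smul (g := fun y => cf J c h j (chartAt (E d) z y)) ?_
    exact (cf_smooth hh j).contMDiff.comp_contMDiffOn (contMDiffOn_chart (I := 𝓡 d))
  have hbs : ∀ j, SmoothFun (d := d) (b j) := by
    intro j
    rw [hb]
    refine f.contMDiff_smul (g := fun y => (chartAt (E d) z y) j) ?_
    exact ((EuclideanSpace.proj (𝕜 := ℝ) j : E d →L[ℝ] ℝ).contDiff.contMDiff).comp_contMDiffOn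
      (contMDiffOn_chart (I := 𝓡 d))
  refine ⟨∑ j, fdg (a j) (b j), ∑ j, dfdg (a j) (b j),
    Pair.sum _ fun j _ => Pair.gen _ _ (has j) (hbs j), ?_, ?_⟩
  · intro p hp
    have hφ : ContMDiffOn (𝓡 d) (𝓡 d) ∞ (chartAt (E d) z).symm (chartAt (E d) z).target :=
      contMDiffOn_chart_symm
    rw [pb_sum, tau_eq hh]
    refine Finset.sum_congr rfl fun j _ => ?_
    rw [pb_dfdg (chartAt (E d) z).open_target hφ (has j) (hbs j) hp]
    have hcf0 : ∀ q, q ∉ S → cf J c h j q = 0 := fun q hq => by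
      unfold cf
      rw [h0 q hq, zero_mul]
    have ea : (a j ∘ (chartAt (E d) z).symm) =ᶠ[𝓝 p] cf J c h j := by
      filter_upwards [(chartAt (E d) z).open_target.mem_nhds hp] with q hq
      rw [ha]
      simp only [Function.comp, smul_eq_mul]
      rw [(chartAt (E d) z).right_inv hq]
      by_cases hqU : q ∈ U₁
      · rw [hf1 q hqU, one_mul]
      · rw [hcf0 q (fun h => hqU (hSU h)), mul_zero]
    rw [ea.fderiv_eq]
    by_cases hpS : p ∈ S
    · have eb : (b j ∘ (chartAt (E d) z).symm) =ᶠ[𝓝 p]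
          (EuclideanSpace.proj (𝕜 := ℝ) j : E d →L[ℝ] ℝ) := by
        filter_upwards [(chartAt (E d) z).open_target.mem_nhds hp, hU₁.mem_nhds (hSU hpS)]
          with q hq hqU
        rw [hb]
        simp only [Function.comp, smul_eq_mul]
        rw [(chartAt (E d) z).right_inv hq, hf1 q hqU, one_mul]
        rfl
      rw [eb.fderiv_eq, ContinuousLinearMap.fderiv]
    · rw [(tau_zero hh hS h0 hpS).2 j]
      ext v
      rw [wedge_apply, wedge_apply]
      simp
  · intro y hy
    have hf0 : ∀ᶠ y' in 𝓝 y, f y' = 0 := by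
      have h1 : y ∉ tsupport f := fun h => hy (f.tsupport_subset_chartAt_source h)
      have h2 := (isClosed_tsupport (f : X → ℝ)).isOpen_compl.mem_nhds h1
      filter_upwards [h2] with y' hy'
      exact image_eq_zero_of_notMem_tsupport hy'
    have hda : ∀ j, dd (d := d) (a j) y = 0 := by
      intro j
      have e1 : a j =ᶠ[𝓝 y] fun _ => (0 : ℝ) := by
        filter_upwards [hf0] with y' hy'
        rw [ha]
        simp only [smul_eq_mul]
        rw [hy', zero_mul]
      unfold dd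
      rw [e1.mfderiv_eq, mfderiv_const]
      rfl
    rw [Finset.sum_apply]
    refine Finset.sum_eq_zero fun j _ => ?_
    unfold dfdg
    rw [hda j]
    ext v
    have h2 := wedge_apply (V := E d) 0 (dd (d := d) (b j) y) v
    refine h2.trans ?_
    simp
    rfl

end

end Pool.Agent.Q235.SZ
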