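import Pool.Agent.Q235.SZ.PubI

/-!
Positivity up to a set of small weighted content: the definitions used in the statement.
-/

set_option autoImplicit false

open Set Filter Topology MeasureTheory
open scoped Manifold ContDiff

noncomputable section

namespace Pool.Agent.Q235.SQP

open Pool.Agent.Y501.SYP Pool.Agent.Q235.SZP

variable {V W : Type} [NormedAddCommGroup V] [NormedSpace ℝ V] [NormedAddCommGroup W]
  [NormedSpace ℝ W] {X : Type} [TopologicalSpace X] [ChartedSpace V X]

/-- `F` is an injective smooth immersion of `X` in `W`. -/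
structure IsEmb (F : X → W) : Prop where
  smooth : ContMDiff 𝓘(ℝ, V) 𝓘(ℝ, W) ∞ F
  inj : Function.Injective F
  immersion : ∀ x, Function.Injective (mfderiv 𝓘(ℝ, V) 𝓘(ℝ, W) F x)

/-- the length of the tangent vector `v` in the metric induced by `F` -/
def len (F : X → W) (x : X) (v : TangentSpace 𝓘(ℝ, V) x) : ℝ :=
  norm (E := W) (mfderiv 𝓘(ℝ, V) 𝓘(ℝ, W) F x v)

/-- `J` is locally Hölder continuous in the charts. -/
def LocHolder (J : End V X) : Prop :=
  ∀ x : X, ∃ a L r : ℝ, 0 < a ∧ 0 < r ∧ ∀ p ∈ Metric.ball (chartAt V x x) r,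
    ∀ q ∈ Metric.ball (chartAt V x x) r, ∀ v : V,
      ‖inChart J x p v - inChart J x q v‖ ≤ L * ‖p - q‖ ^ a * ‖v‖

/-- `σ(v, J v) ≥ κ |v|²` for all tangent vectors at `y`; at the points of `K` this is meant in the
limit from the complement of `K`. -/
structure AtLeast (F : X → W) (J : End V X) (σ : Form V X 2) (K : Set X) (κ : ℝ) (y : X) :
    Prop where
  off : y ∉ K → ∀ v : TangentSpace 𝓘(ℝ, V) y, κ * len F y v ^ 2 ≤ qd σ J y v
  on : y ∈ K → ∀ κ' : ℝ, κ' < κ → ∀ᶠ x in 𝓝 y, x ∉ K → ∀ v : TangentSpace 𝓘(ℝ, V) x,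
    κ' * len F x v ^ 2 ≤ qd σ J x v

/-- `σ` is smooth and closed on the complement of `K`, bounded near the points of `K` outside `T`,
and with singularities of order less than two at the points of `T`. -/
structure ClosedSing (K T : Set X) (σ : Form V X 2) : Prop where
  closed : ClosedOff σ K
  bounded : ∀ x ∈ K, x ∉ T → BddNear σ K x
  order : ∀ x ∈ T, OrderLtTwo σ K x

/-- Balls with centres `x i` and radii `r i` and numbers `C i ≥ 0`, such that the sum of the
numbers `(1 + C i) (r i)²` is at most `ε`. -/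
structure SmallBalls {ι : Type} (ε : ℝ) (r C : ι → ℝ) : Prop where
  pos : ∀ i, 0 < r i
  nonneg : ∀ i, 0 ≤ C i
  sum : ∀ s : Finset ι, ∑ i ∈ s, (1 + C i) * r i ^ 2 ≤ ε

end Pool.Agent.Q235.SQP
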