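import Pool.Agent.Q235.SQ.LowPt
import Pool.Agent.Q235.SQ.PubQ
import Pool.Agent.Q235.SZ.Final

/-!
Positivity up to a set of small weighted content: comparison of the definitions.
-/

set_option autoImplicit false

open Set Filter Topology MeasureTheory
open scoped Manifold ContDiff

noncomputable section

namespace Pool.Agent.Q235.SQP

open Pool.Agent.Y501.SYP Pool.Agent.Q235.SZP

attribute [local instance] cs mf

section

variable {d m : ℕ} {X : Type} [TopologicalSpace X] [ChartedSpace (ES d) X]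

theorem locHol_of {J : End (ES d) X} (h : LocHolder J) : SZ.LocHol (d := d) (X := X) J := h

variable [IsManifold 𝓘(ℝ, ES d) ∞ X]

theorem low_of {F : X → ES m} (hF : IsEmb (V := ES d) F) {J : End (ES d) X}
    (hJ : IsAlmostComplex J) {σ : Form (ES d) X 2} {K : Set X} (hK : IsClosed K)
    (hσ : ClosedOff σ K) {κ : ℝ} {y : X} (h : AtLeast F J σ K κ y) :
    SZ.Low (d := d) (m := m) (X := X) F J σ K κ y := by
  by_cases hy : y ∈ K
  · exact h.on hy
  · exact SZ.low_point (d := d) (m := m) (X := X) hF.smooth hF.immersion (ac_of J hJ) hK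
      (fun V φ hV hφ hp => (hσ V φ ⟨hV, hφ⟩ hp).1) hy (h.off hy)

theorem smallF [CompactSpace X] [T2Space X] (hd : 4 ≤ d) (F : X → ES m)
    (hF : IsEmb (V := ES d) F) (J : End (ES d) X) (hJ : IsAlmostComplex J) (hol : LocHolder J) :
    ∃ ε : ℝ, 0 < ε ∧ ∀ (K T : Set X), IsClosed K →
      (∀ x₀ : X, μH[(d : ℝ) - 1] (chartAt (ES d) x₀ '' (K ∩ (chartAt (ES d) x₀).source)) = 0) →
      T.Finite → T ⊆ K → ∀ σ : Form (ES d) X 2, ClosedSing K T σ →
      ∀ (ι : Type) (x : ι → X) (r C : ι → ℝ), SmallBalls ε r C →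
      (∀ y, AtLeast F J σ K 1 y ∨ ∃ i, ‖F y - F (x i)‖ < r i ∧ AtLeast F J σ K (-C i) y) →
      ∀ U : Set X, IsOpen U → K ⊆ U →
      ∃ (α : Form (ES d) X 1) (η w : Form (ES d) X 2), IsSmooth α ∧ IsSmooth η ∧ IsD α η ∧
        IsTamingSymplectic w J ∧ ∀ x, x ∉ U → w x = addF σ η x := by
  obtain ⟨ε, hε, h⟩ := SZ.smallMain (d := d) (m := m) (X := X) hd (F := F) hF.smooth hF.inj
    hF.immersion (J := J) (ac_of J hJ) (locHol_of hol)
  refine ⟨ε, hε, ?_⟩
  intro K T hK hH hT hTK σ hσ ι x r C hsum hpos U hU hKU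
  obtain ⟨α, η, w, h1, h2, h3, h4, h5, h6, h7⟩ := h K T hK hH hT hTK σ
    (fun V φ hV hφ hp => (hσ.closed V φ ⟨hV, hφ⟩ hp).1)
    (fun V φ hV hφ hp p hpV => (hσ.closed V φ ⟨hV, hφ⟩ hp).2 p hpV)
    (fun x hxT => by
      by_cases hx : x ∈ K
      · exact hσ.bounded x hx hxT
      · exact bdd_off hK hσ.closed hx)
    hσ.order ι x r C hsum.pos hsum.nonneg hsum.sum
    (fun y => by
      rcases hpos y with h | ⟨i, h1, h2⟩
      · exact Or.inl (low_of hF hJ hK hσ.closed h)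
      · exact Or.inr ⟨i, h1, low_of hF hJ hK hσ.closed h2⟩) U hU hKU
  exact ⟨α, η, w, (smooth_iff α).2 h1, (smooth_iff η).2 h2, (isD_iff α η).2 h3,
    symp_of ((smooth_iff w).2 h4) ((closed_iff w).2 h5) h6, h7⟩

end

end Pool.Agent.Q235.SQP
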