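import Pool.Agent.Q235.SQ.Ext
import Pool.Agent.Q235.SQ.Anti
import Pool.Agent.Q235.SZ.PStep

/-!
# Exact forms concentrated in small balls
-/

set_option autoImplicit false

open Set Filter Topology MeasureTheory
open scoped Manifold ContDiff Pointwise

noncomputable section

namespace Pool.Agent.Q235.SZ

open Pool.Agent.Y501.SY Pool.Agent.Y455.SY

section

variable {d : ℕ} {X : Type} [TopologicalSpace X] [ChartedSpace (E d) X]

/-- `α` and `η = dα` are smooth -/
structure ExL (α : Form d X 1) (η : Form d X 2) : Prop where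
  s1 : IsSmooth α
  s2 : IsSmooth η
  isD : IsD α η
  closed : IsClosedForm η

theorem ExL.zero : ExL (0 : Form d X 1) (0 : Form d X 2) :=
  ⟨IsSmooth.zero, IsSmooth.zero, IsD.zero, IsD.zero⟩

theorem ExL.smul {α : Form d X 1} {η : Form d X 2} (h : ExL α η) (c : ℝ) : ExL (c • α) (c • η) :=
  ⟨h.s1.smul c, h.s2.smul c, h.isD.smul c, (closed_smul ⟨h.s2, h.closed⟩ c).2⟩

theorem ExL.add {α α' : Form d X 1} {η η' : Form d X 2} (h : ExL α η) (h' : ExL α' η') :
    ExL (α + α') (η + η') := by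
  refine ⟨h.s1.add h'.s1, h.s2.add h'.s2, h.isD.add h'.isD h.s1 h'.s1, ?_⟩
  have := h.closed.add h'.closed h.s2 h'.s2
  rwa [add_zero] at this

theorem ExL.sum {ι : Type} (s : Finset ι) {α : ι → Form d X 1} {η : ι → Form d X 2}
    (h : ∀ i ∈ s, ExL (α i) (η i)) : ExL (∑ i ∈ s, α i) (∑ i ∈ s, η i) := by
  classical
  induction s using Finset.induction_on with
  | empty => simpa using ExL.zero
  | insert a s ha ih =>
    rw [Finset.sum_insert ha, Finset.sum_insert ha]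
    exact ExL.add (h a (Finset.mem_insert_self a s))
      (ih fun i hi => h i (Finset.mem_insert_of_mem hi))

theorem ex_of_pair [IsManifold (𝓡 d) ∞ X] {α : Form d X 1} {η : Form d X 2} (h : Pair α η) :
    ExL α η := by
  obtain ⟨h1, h2, h3, h4⟩ := h.props Pool.Agent.Y484.SY.t_GEN
  exact ⟨h1, h2, h3, h4⟩

/-- `J` is locally uniformly Hölder continuous in the charts. -/
def LocHol (J : End d X) : Prop :=
  ∀ x : X, ∃ a L r : ℝ, 0 < a ∧ 0 < r ∧ ∀ p ∈ Metric.ball (chartAt (E d) x x) r,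
    ∀ q ∈ Metric.ball (chartAt (E d) x x) r, ∀ v : E d,
      ‖inChart J x p v - inChart J x q v‖ ≤ L * ‖p - q‖ ^ a * ‖v‖

variable [IsManifold (𝓡 d) ∞ X]

theorem locL [CompactSpace X] [T2Space X] {m : ℕ} {F : X → E m}
    (hF : ContMDiff (𝓡 d) (𝓡 m) ∞ F) (hFi : Function.Injective F)
    (hFd : ∀ x, Function.Injective (mfderiv (𝓡 d) (𝓡 m) F x)) {J : End d X}
    (hJ : IsAlmostComplex J) (hol : LocHol J) (z : X) :
    ∃ ρ c C : ℝ, 0 < ρ ∧ 0 < c ∧ 0 < C ∧ ∀ᶠ x in 𝓝 z, ∀ r : ℝ, 0 < r → r < ρ →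
      ∃ (α : Form d X 1) (η : Form d X 2), ExL α η ∧
        (∀ y, ‖F y - F x‖ ≤ r → ∀ v : TangentSpace (𝓡 d) y,
          c * nm F y v ^ 2 ≤ η y ![v, J y v]) ∧
        ∀ (y : X) (v : TangentSpace (𝓡 d) y), -(C * r ^ 2) * nm F y v ^ 2 ≤ η y ![v, J y v] := by
  obtain ⟨p₀, hp₀⟩ : ∃ p₀, p₀ = chartAt (E d) z z := ⟨_, rfl⟩
  obtain ⟨a₀, L₀, r₁, ha₀, hr₁, hol⟩ := hol z
  obtain ⟨δ₁, Λ, hδ₁, hΛ, hanti⟩ := anti hF hFd z
  rw [← hp₀] at hol hanti
  -- the radius
  obtain ⟨R₀, hR₀, hR₀r, hR₀δ, hR₀1, hN⟩ : ∃ R₀ : ℝ, 0 < R₀ ∧ R₀ ≤ r₁ ∧ R₀ ≤ δ₁ ∧ R₀ ≤ 1 ∧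
      Metric.closedBall p₀ R₀ ⊆ (chartAt (E d) z).target := by
    obtain ⟨r, hr, h6⟩ := Metric.nhds_basis_closedBall.mem_iff.1
      ((chartAt (E d) z).open_target.mem_nhds (mem_chart_target (E d) z))
    refine ⟨min (min r₁ δ₁) (min 1 r), by positivity, (min_le_left _ _).trans (min_le_left _ _),
      (min_le_left _ _).trans (min_le_right _ _), (min_le_right _ _).trans (min_le_left _ _), ?_⟩
    rw [hp₀]
    exact (Metric.closedBall_subset_closedBall
      ((min_le_right _ _).trans (min_le_right _ _))).trans h6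
  obtain ⟨a, ha, ha1, haa⟩ : ∃ a : ℝ, 0 < a ∧ a ≤ 1 ∧ a ≤ a₀ :=
    ⟨min a₀ 1, by positivity, min_le_right _ _, min_le_left _ _⟩
  obtain ⟨ci, Ci, hci, hCi, hnm⟩ := Pool.Agent.Y44.SY.t_IMM d m X F hF hFd z
    (Metric.closedBall p₀ R₀) (isCompact_closedBall _ _) hN
  obtain ⟨⟨CJ, hCJ, hq⟩, -⟩ := Pool.Agent.Y44.SY.t_QB d X J hJ 0 IsSmooth.zero z
    (Metric.closedBall p₀ R₀) (isCompact_closedBall _ _) hN
  obtain ⟨K, hK⟩ : ∃ K, K = 1 + CJ := ⟨_, rfl⟩
  have hK1 : 1 ≤ K := by rw [hK]; linarith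
  obtain ⟨R, Cτ, c₁, hR, hRR, hc₁, hCτ, hpsh⟩ := psh_unif (d := d) (R₁ := R₀ / 4) (L := |L₀|)
    (a := a) hK1 (by positivity) (abs_nonneg _) ha ha1
  obtain ⟨ρ₁, hρ₁, hclose⟩ := close (d := d) hF.continuous hFi z hR₀ (by rw [← hp₀]; exact hN)
  rw [← hp₀] at hclose
  obtain ⟨f, hf⟩ : ∃ f : SmoothBumpFunction (𝓡 d) z, ∀ p ∈ Metric.ball p₀ (R₀ / 2),
      f ((chartAt (E d) z).symm p) = 1 := by
    refine ⟨⟨⟨R₀ / 2, R₀, by positivity, by linarith⟩, ?_⟩, ?_⟩
    · intro p hp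
      have h1 : p ∈ Metric.closedBall p₀ R₀ := by
        rw [hp₀]
        exact hp.1
      have h2 := hN h1
      simpa using h2
    · intro p hp
      have hpt : p ∈ (chartAt (E d) z).target :=
        hN (Metric.ball_subset_closedBall (Metric.ball_subset_ball (by linarith) hp))
      refine SmoothBumpFunction.one_of_dist_le _ ((chartAt (E d) z).map_target hpt) ?_
      change dist (chartAt (E d) z ((chartAt (E d) z).symm p)) (chartAt (E d) z z) ≤ R₀ / 2
      rw [(chartAt (E d) z).right_inv hpt, ← hp₀]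
      exact (Metric.mem_ball.1 hp).le
  refine ⟨min ρ₁ (R / (4 * Λ)), c₁ / (Λ ^ 2 * Ci ^ 2), Cτ * K / ci ^ 2 + 1, by positivity,
    by positivity, by positivity, ?_⟩
  have hV : ∀ᶠ x in 𝓝 z, x ∈ (chartAt (E d) z).source ∧
      chartAt (E d) z x ∈ Metric.ball p₀ (R₀ / 4) := by
    refine Filter.Eventually.and
      ((chartAt (E d) z).open_source.mem_nhds (mem_chart_source (E d) z)) ?_
    refine ((chartAt (E d) z).continuousAt (mem_chart_source (E d) z)).eventually ?_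
    rw [← hp₀]
    exact Metric.ball_mem_nhds _ (by positivity)
  filter_upwards [hV] with x hx r hr hrρ
  obtain ⟨hxs, hxb⟩ := hx
  have hrρ₁ : r < ρ₁ := hrρ.trans_le (min_le_left _ _)
  have hrR : 4 * (Λ * r) ≤ R := by
    have h1 : r < R / (4 * Λ) := hrρ.trans_le (min_le_right _ _)
    rw [lt_div_iff₀ (by positivity)] at h1
    linarith
  obtain ⟨c, hc⟩ : ∃ c, c = chartAt (E d) z x := ⟨_, rfl⟩
  rw [← hc] at hxb
  have hmb : ∀ (p q : E d) (t : ℝ), p ∈ Metric.ball q t ↔ ‖p - q‖ < t := fun p q t => by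
    rw [Metric.mem_ball, dist_eq_norm]
  have hcb : ∀ p, ‖p - c‖ ≤ R₀ / 4 → p ∈ Metric.ball p₀ (R₀ / 2) := by
    intro p hp
    rw [hmb] at hxb ⊢
    have h1 := norm_sub_le_norm_sub_add_norm_sub p c p₀
    linarith
  have hsub : Metric.ball p₀ (R₀ / 2) ⊆ Metric.ball p₀ R₀ := Metric.ball_subset_ball (by linarith)
  have hsubN : Metric.ball p₀ (R₀ / 2) ⊆ Metric.closedBall p₀ R₀ :=
    hsub.trans Metric.ball_subset_closedBall
  have hcc : c ∈ Metric.ball p₀ (R₀ / 2) := hcb c (by rw [sub_self, norm_zero]; positivity)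
  have hct : c ∈ (chartAt (E d) z).target := hN (hsubN hcc)
  have hKb : ∀ p ∈ Metric.ball p₀ (R₀ / 2), ‖inChart J z p‖ ≤ CJ := fun p hp =>
    (hq p (hsubN hp)).2.1
  have hHol : ∀ p, ‖p - c‖ ≤ R₀ / 4 → ‖inChart J z p - inChart J z c‖ ≤ |L₀| * ‖p - c‖ ^ a := by
    intro p hp
    refine ContinuousLinearMap.opNorm_le_bound _ (by positivity) fun v => ?_
    have h1 := hol p (Metric.ball_subset_ball hR₀r (hsub (hcb p hp))) c
      (Metric.ball_subset_ball hR₀r (hsub hcc)) v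
    refine h1.trans (mul_le_mul_of_nonneg_right ?_ (norm_nonneg _))
    have h2 : ‖p - c‖ ^ a₀ ≤ ‖p - c‖ ^ a := by
      rcases (norm_nonneg (p - c)).eq_or_lt with h0 | h0
      · rw [← h0, Real.zero_rpow ha₀.ne', Real.zero_rpow ha.ne']
      · exact Real.rpow_le_rpow_of_exponent_ge h0 (by linarith) haa
    have h3 : 0 ≤ ‖p - c‖ ^ a₀ := by positivity
    calc L₀ * ‖p - c‖ ^ a₀ ≤ |L₀| * ‖p - c‖ ^ a₀ := by gcongr; exact le_abs_self _
      _ ≤ |L₀| * ‖p - c‖ ^ a := by gcongr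
  obtain ⟨h, hh, h0, t1, t2, t3, t4⟩ := hpsh c (inChart J z c) (inChart J z)
    (fun v => inChart_sq hJ z hct v) (by rw [hK]; linarith [hKb c hcc]) hHol (Λ * r)
    (by positivity) hrR
  obtain ⟨α, η, hpair, hη1, hη2⟩ := ext_chart z f Metric.isOpen_ball hf (inChart J z c) c hh
    (S := Metric.closedBall c (2 * R)) Metric.isClosed_closedBall (by
      intro p hp
      refine hcb p ?_
      rw [Metric.mem_closedBall, dist_eq_norm] at hp
      linarith) (by
      intro p hp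
      refine h0 p ?_
      rw [Metric.mem_closedBall, dist_eq_norm, not_le] at hp
      exact hp.le)
  have hQ : ∀ p ∈ (chartAt (E d) z).target, ∀ u : E d,
      η ((chartAt (E d) z).symm p) ![A z p u, J ((chartAt (E d) z).symm p) (A z p u)] =
        tau (inChart J z c) c h p ![u, inChart J z p u] := by
    intro p hp u
    rw [← hη1 p hp]
    exact (Q_eq η J z hp u).symm
  have hsm : ∀ (y : X) (v : TangentSpace (𝓡 d) y), (r ^ 2 • η) y ![v, J y v] =
      r ^ 2 * η y ![v, J y v] := fun y v => rfl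
  refine ⟨r ^ 2 • α, r ^ 2 • η, (ex_of_pair hpair).smul _, ?_, ?_⟩
  · intro y hy v
    rw [hsm]
    obtain ⟨hys, hyb⟩ := hclose x hxs (by
      rw [← hc]
      exact Metric.ball_subset_closedBall hcc) y (hy.trans_lt hrρ₁)
    obtain ⟨p, hp⟩ : ∃ p, p = chartAt (E d) z y := ⟨_, rfl⟩
    rw [← hp] at hyb
    have hyp : y = (chartAt (E d) z).symm p := by
      rw [hp]
      exact ((chartAt (E d) z).left_inv hys).symm
    have hxc : x = (chartAt (E d) z).symm c := by
      rw [hc]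
      exact ((chartAt (E d) z).left_inv hxs).symm
    have hpt : p ∈ (chartAt (E d) z).target := hN (Metric.ball_subset_closedBall hyb)
    have h1 := hanti p (Metric.ball_subset_ball hR₀δ hyb) c
      (Metric.ball_subset_ball hR₀δ (hsub hcc))
    rw [← hyp, ← hxc] at h1
    have h2 : ‖p - c‖ ≤ 2 * (Λ * r) := by
      have h3 := mul_le_mul_of_nonneg_left hy hΛ.le
      have h4 : 0 ≤ Λ * r := by positivity
      linarith
    clear hp
    subst hyp
    obtain ⟨u, rfl⟩ := A_surj z hpt v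
    rw [hQ p hpt u]
    have h5 := t2 p h2 u
    have h6 := (hnm p (Metric.ball_subset_closedBall hyb) u).2
    have h7 : nm F ((chartAt (E d) z).symm p) (A z p u) ^ 2 ≤ Ci ^ 2 * ‖u‖ ^ 2 := by
      rw [← mul_pow]
      exact pow_le_pow_left₀ (norm_nonneg _) h6 2
    calc c₁ / (Λ ^ 2 * Ci ^ 2) * nm F ((chartAt (E d) z).symm p) (A z p u) ^ 2
        ≤ c₁ / (Λ ^ 2 * Ci ^ 2) * (Ci ^ 2 * ‖u‖ ^ 2) := by gcongr
      _ = r ^ 2 * (c₁ / (Λ * r) ^ 2 * ‖u‖ ^ 2) := by field_simp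
      _ ≤ _ := by gcongr
  · intro y v
    rw [hsm]
    have hn2 : 0 ≤ nm F y v ^ 2 := sq_nonneg _
    by_cases hys : y ∈ (chartAt (E d) z).source
    · obtain ⟨p, hp⟩ : ∃ p, p = chartAt (E d) z y := ⟨_, rfl⟩
      have hyp : y = (chartAt (E d) z).symm p := by
        rw [hp]
        exact ((chartAt (E d) z).left_inv hys).symm
      have hpt : p ∈ (chartAt (E d) z).target := by
        rw [hp]
        exact (chartAt (E d) z).map_source hys
      clear hp
      subst hyp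
      obtain ⟨u, rfl⟩ := A_surj z hpt v
      rw [hQ p hpt u]
      have hneg : -((Cτ * K / ci ^ 2 + 1) * r ^ 2) *
          nm F ((chartAt (E d) z).symm p) (A z p u) ^ 2 ≤ 0 := by
        have : 0 ≤ ((Cτ * K / ci ^ 2 + 1) * r ^ 2) *
          nm F ((chartAt (E d) z).symm p) (A z p u) ^ 2 := by positivity
        linarith
      by_cases h1 : ‖p - c‖ < R
      · refine hneg.trans ?_
        have := t1 p h1 u
        positivity
      · rw [not_lt] at h1
        by_cases h2 : 2 * R ≤ ‖p - c‖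
        · rw [t4 p h2]
          refine hneg.trans ?_
          have h3 : (0 : (E d) [⋀^Fin 2]→L[ℝ] ℝ) ![u, inChart J z p u] = 0 := rfl
          rw [h3, mul_zero]
        · rw [not_le] at h2
          have hpb : p ∈ Metric.ball p₀ (R₀ / 2) := hcb p (by linarith)
          have h5 := pair_le (tau (inChart J z c) c h p) (inChart J z p) u
            ((hKb p hpb).trans (by rw [hK]; linarith : CJ ≤ K)) (t3 p h1)
          have h6 := (hnm p (hsubN hpb) u).1
          have h7 : ci ^ 2 * ‖u‖ ^ 2 ≤ nm F ((chartAt (E d) z).symm p) (A z p u) ^ 2 := by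
            rw [← mul_pow]
            exact pow_le_pow_left₀ (by positivity) h6 2
          have h8 : Cτ * K * ‖u‖ ^ 2 ≤ Cτ * K / ci ^ 2 *
              nm F ((chartAt (E d) z).symm p) (A z p u) ^ 2 := by
            calc Cτ * K * ‖u‖ ^ 2 = Cτ * K / ci ^ 2 * (ci ^ 2 * ‖u‖ ^ 2) := by field_simp
              _ ≤ _ := by gcongr
          have h9 := (abs_le.1 h5).1
          have h10 : -(Cτ * K / ci ^ 2 * nm F ((chartAt (E d) z).symm p) (A z p u) ^ 2) ≤
              tau (inChart J z c) c h p ![u, inChart J z p u] := by linarith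
          have h11 := mul_le_mul_of_nonneg_left h10 (sq_nonneg r)
          refine le_trans ?_ h11
          have h12 : 0 ≤ r ^ 2 * nm F ((chartAt (E d) z).symm p) (A z p u) ^ 2 := by positivity
          nlinarith
    · rw [hη2 y hys]
      have h3 : (0 : (TangentSpace (𝓡 d) y) [⋀^Fin 2]→L[ℝ] ℝ) ![v, J y v] = 0 := rfl
      rw [h3, mul_zero]
      have : 0 ≤ ((Cτ * K / ci ^ 2 + 1) * r ^ 2) * nm F y v ^ 2 := by positivity
      linarith

end

end Pool.Agent.Q235.SZ
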