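import Pool.Agent.Q235.SQ.MainK

/-!
# Lower bounds at points where the form is continuous
-/

set_option autoImplicit false

open Set Filter Topology MeasureTheory
open scoped Manifold ContDiff Pointwise

noncomputable section

namespace Pool.Agent.Q235.SZ

open Pool.Agent.Y501.SY Pool.Agent.Y455.SY

section

variable {d m : ℕ} {X : Type} [TopologicalSpace X] [ChartedSpace (E d) X]
  [IsManifold (𝓡 d) ∞ X]

theorem Q_cont' {σ : Form d X 2} {J : End d X} {x : X} {p v : E d}
    (h1 : ContinuousAt (pb (chartAt (E d) x).symm σ) p)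
    (hJ : IsAlmostComplex J) (hp : p ∈ (chartAt (E d) x).target) :
    ContinuousAt (fun z : E d × E d => Q σ J x z.1 z.2) (p, v) := by
  have h2 : ContinuousAt (inChart J x) p :=
    (hJ.cont x).continuousAt ((chartAt (E d) x).open_target.mem_nhds hp)
  have h3 : ContinuousAt (fun z : E d × E d => pb (chartAt (E d) x).symm σ z.1) (p, v) :=
    ContinuousAt.comp (f := Prod.fst) (x := (p, v)) h1 continuousAt_fst
  have h4 : ContinuousAt (fun z : E d × E d => inChart J x z.1) (p, v) :=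
    ContinuousAt.comp (f := Prod.fst) (x := (p, v)) h2 continuousAt_fst
  have h5 : ContinuousAt (fun z : E d × E d => inChart J x z.1 z.2) (p, v) :=
    h4.clm_apply continuousAt_snd
  have h6 : ContinuousAt (fun z : E d × E d => (![z.2, inChart J x z.1 z.2] : Fin 2 → E d))
      (p, v) := by
    rw [continuousAt_pi]
    intro i
    fin_cases i
    · exact continuousAt_snd
    · exact h5
  exact h3.eval h6

theorem gt_near {F : X → E m} (hF : ContMDiff (𝓡 d) (𝓡 m) ∞ F) {J : End d X}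
    (hJ : IsAlmostComplex J) {σ : Form d X 2} (κ : ℝ) {z : X}
    (hσ : ContinuousAt (pb (chartAt (E d) z).symm σ) (chartAt (E d) z z))
    (hz : Gt F J σ κ z) : ∀ᶠ y in 𝓝 z, Gt F J σ κ y := by
  obtain ⟨p₀, hp₀⟩ : ∃ p₀, p₀ = chartAt (E d) z z := ⟨_, rfl⟩
  have hp₀t : p₀ ∈ (chartAt (E d) z).target := by rw [hp₀]; exact mem_chart_target (E d) z
  have hp₀s : (chartAt (E d) z).symm p₀ = z := by
    rw [hp₀]; exact (chartAt (E d) z).left_inv (mem_chart_source (E d) z)
  obtain ⟨G, hG⟩ : ∃ G : E d → E m, G = F ∘ (chartAt (E d) z).symm := ⟨_, rfl⟩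
  have hG1 : ContMDiffOn (𝓡 d) (𝓡 m) ∞ G (chartAt (E d) z).target := by
    rw [hG]
    exact hF.comp_contMDiffOn contMDiffOn_chart_symm
  have hG2 : ContDiffOn ℝ ∞ G (chartAt (E d) z).target := contMDiffOn_iff_contDiffOn.1 hG1
  have hG3 : ContinuousOn (fderiv ℝ G) (chartAt (E d) z).target :=
    hG2.continuousOn_fderiv_of_isOpen (chartAt (E d) z).open_target (by simp)
  have hnm : ∀ p ∈ (chartAt (E d) z).target, ∀ v : E d,
      nm F ((chartAt (E d) z).symm p) (A z p v) = ‖fderiv ℝ G p v‖ := by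
    intro p hp v
    have h1 : MDifferentiableAt (𝓡 d) (𝓡 m) F ((chartAt (E d) z).symm p) :=
      hF.mdifferentiableAt (by simp)
    have h2 : MDifferentiableAt (𝓡 d) (𝓡 d) (chartAt (E d) z).symm p :=
      ((contMDiffOn_chart_symm (n := ∞)).contMDiffAt
        ((chartAt (E d) z).open_target.mem_nhds hp)).mdifferentiableAt (by simp)
    have h3 : mfderiv (𝓡 d) (𝓡 m) (F ∘ (chartAt (E d) z).symm) p =
      (mfderiv (𝓡 d) (𝓡 m) F ((chartAt (E d) z).symm p)).comp
      (mfderiv (𝓡 d) (𝓡 d) (chartAt (E d) z).symm p) := mfderiv_comp p h1 h2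
    have h4 : mfderiv (𝓡 d) (𝓡 m) G p = fderiv ℝ G p := mfderiv_eq_fderiv
    rw [← h4, hG, h3]
    rfl
  have key : ∀ᶠ p in 𝓝 p₀, ∀ u ∈ Metric.sphere (0 : E d) 1,
      0 < Q σ J z p u - κ * ‖fderiv ℝ G p u‖ ^ 2 := by
    refine IsCompact.eventually_forall_of_forall_eventually (isCompact_sphere _ _) ?_
    intro u hu
    have hu0 : u ≠ 0 := by
      rintro rfl
      simp at hu
    have hc1 : ContinuousAt (fun w : E d × E d => Q σ J z w.1 w.2) (p₀, u) :=
      Q_cont' (by rw [hp₀]; exact hσ) hJ hp₀t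
    have hc2 : ContinuousAt (fun w : E d × E d => fderiv ℝ G w.1) (p₀, u) :=
      ContinuousAt.comp (f := fun w : E d × E d => w.1) (x := (p₀, u)) (g := fderiv ℝ G)
        (hG3.continuousAt ((chartAt (E d) z).open_target.mem_nhds hp₀t)) continuousAt_fst
    have hc3 : ContinuousAt (fun w : E d × E d => Q σ J z w.1 w.2 -
        κ * ‖fderiv ℝ G w.1 w.2‖ ^ 2) (p₀, u) :=
      hc1.sub (continuousAt_const.mul (((hc2.clm_apply continuousAt_snd).norm).pow 2))
    refine hc3.eventually (lt_mem_nhds ?_)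
    have hA : (A z p₀ u : TangentSpace (𝓡 d) ((chartAt (E d) z).symm p₀)) ≠ 0 := by
      intro h0
      apply hu0
      have h1 : B z p₀ (A z p₀ u) = B z p₀ 0 := congrArg (B z p₀) h0
      rwa [BA z hp₀t, map_zero] at h1
    have hz' : Gt F J σ κ ((chartAt (E d) z).symm p₀) := by
      rw [hp₀s]
      exact hz
    have h2 := hz' _ hA
    dsimp only
    rw [Q_eq σ J z hp₀t, ← hnm p₀ hp₀t]
    linarith
  rw [hp₀] at key
  refine Pool.Agent.Y929.SY.ev_of_chart (d := d) ?_
  filter_upwards [key, (chartAt (E d) z).open_target.mem_nhds (mem_chart_target (E d) z)]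
    with p hp hpt v hv
  obtain ⟨u, rfl⟩ := A_surj z hpt v
  have hu0 : u ≠ 0 := by
    rintro rfl
    exact hv (map_zero _)
  have h1 := (pos_iff (fun u => Q σ J z p u - κ * ‖fderiv ℝ G p u‖ ^ 2) (fun s v => by
    rw [Q_smul, map_smul, norm_smul, mul_pow, Real.norm_eq_abs, sq_abs]
    ring)).2 hp u hu0
  rw [Q_eq σ J z hpt, ← hnm p hpt] at h1
  linarith

theorem low_point {F : X → E m} (hF : ContMDiff (𝓡 d) (𝓡 m) ∞ F)
    (hFd : ∀ x, Function.Injective (mfderiv (𝓡 d) (𝓡 m) F x)) {J : End d X}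
    (hJ : IsAlmostComplex J) {σ : Form d X 2} {K : Set X} (hK : IsClosed K) (hσ : SmoothOff σ K)
    {κ : ℝ} {y : X} (hy : y ∉ K)
    (h : ∀ v : TangentSpace (𝓡 d) y, κ * nm F y v ^ 2 ≤ σ y ![v, J y v]) : Low F J σ K κ y := by
  intro κ' hκ
  have hc : ContinuousAt (pb (chartAt (E d) y).symm σ) (chartAt (E d) y y) := by
    have h1 : IsOpen ((chartAt (E d) y).target ∩ (chartAt (E d) y).symm ⁻¹' Kᶜ) :=
      (chartAt (E d) y).isOpen_inter_preimage_symm hK.isOpen_compl
    have h2 := hσ _ (chartAt (E d) y).symm h1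
      ((contMDiffOn_chart_symm (n := ∞)).mono inter_subset_left) (fun p hp => hp.2)
    refine h2.continuousOn.continuousAt (h1.mem_nhds ⟨mem_chart_target (E d) y, ?_⟩)
    rw [mem_preimage, (chartAt (E d) y).left_inv (mem_chart_source (E d) y)]
    exact hy
  have hgt : Gt F J σ κ' y := by
    intro v hv
    have h1 := nm_pos hFd hv
    have h2 : 0 < nm F y v ^ 2 := by positivity
    refine lt_of_lt_of_le ?_ (h v)
    exact mul_lt_mul_of_pos_right hκ h2
  filter_upwards [gt_near hF hJ κ' hc hgt] with x hx _ v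
  by_cases hv : v = 0
  · have h0 : nm F x v = 0 := by
      unfold nm
      rw [hv, map_zero]
      exact norm_zero
    have h1 : (![v, J x v] : Fin 2 → TangentSpace (𝓡 d) x) = 0 := by
      rw [hv, map_zero]
      funext i
      fin_cases i <;> rfl
    rw [h0, h1, (σ x).map_zero]
    simp
  · exact (hx v hv).le

end

end Pool.Agent.Q235.SZ
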