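import Pool.Agent.Q235.SQ.LocL

/-!
# Positivity up to a set of small weighted content: the main theorem
-/

set_option autoImplicit false

open Set Filter Topology MeasureTheory
open scoped Manifold ContDiff Pointwise

noncomputable section

namespace Pool.Agent.Q235.SZ

open Pool.Agent.Y501.SY Pool.Agent.Y455.SY

section

variable {d m : ℕ} {X : Type} [TopologicalSpace X] [ChartedSpace (E d) X]

/-- strict lower bound at a point -/
def Gt (F : X → E m) (J : End d X) (σ : Form d X 2) (κ : ℝ) (y : X) : Prop :=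
  ∀ v : TangentSpace (𝓡 d) y, v ≠ 0 → κ * nm F y v ^ 2 < σ y ![v, J y v]

theorem nm_pos {F : X → E m} (hFd : ∀ x, Function.Injective (mfderiv (𝓡 d) (𝓡 m) F x)) {x : X}
    {v : TangentSpace (𝓡 d) x} (hv : v ≠ 0) : 0 < nm F x v := by
  refine lt_of_le_of_ne (norm_nonneg _) fun h => hv ?_
  have h2 : (mfderiv (𝓡 d) (𝓡 m) F x v : E m) = 0 := norm_eq_zero.1 h.symm
  apply hFd x
  rw [map_zero]
  exact h2

variable [IsManifold (𝓡 d) ∞ X]

theorem open_gt {F : X → E m} (hF : ContMDiff (𝓡 d) (𝓡 m) ∞ F) {J : End d X}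
    (hJ : IsAlmostComplex J) {σ : Form d X 2} (hσ : IsSmooth σ) (κ : ℝ) :
    IsOpen {y | Gt F J σ κ y} := by
  rw [isOpen_iff_eventually]
  intro z hz
  obtain ⟨p₀, hp₀⟩ : ∃ p₀, p₀ = chartAt (E d) z z := ⟨_, rfl⟩
  have hp₀t : p₀ ∈ (chartAt (E d) z).target := by rw [hp₀]; exact mem_chart_target (E d) z
  have hp₀s : (chartAt (E d) z).symm p₀ = z := by
    rw [hp₀]; exact (chartAt (E d) z).left_inv (mem_chart_source (E d) z)
  obtain ⟨G, hG⟩ : ∃ G : E d → E m, G = F ∘ (chartAt (E d) z).symm := ⟨_, rfl⟩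
  have hG1 : ContMDiffOn (𝓡 d) (𝓡 m) ∞ G (chartAt (E d) z).target := by
    rw [hG]
    exact hF.comp_contMDiffOn contMDiffOn_chart_symm
  have hG2 : ContDiffOn ℝ ∞ G (chartAt (E d) z).target := contMDiffOn_iff_contDiffOn.1 hG1
  have hG3 : ContinuousOn (fderiv ℝ G) (chartAt (E d) z).target :=
    hG2.continuousOn_fderiv_of_isOpen (chartAt (E d) z).open_target (by simp)
  have hnm : ∀ p ∈ (chartAt (E d) z).target, ∀ v : E d,
      nm F ((chartAt (E d) z).symm p) (A z p v) = ‖fderiv ℝ G p v‖ := by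
    intro p hp v
    have h1 : MDifferentiableAt (𝓡 d) (𝓡 m) F ((chartAt (E d) z).symm p) :=
      hF.mdifferentiableAt (by simp)
    have h2 : MDifferentiableAt (𝓡 d) (𝓡 d) (chartAt (E d) z).symm p :=
      ((contMDiffOn_chart_symm (n := ∞)).contMDiffAt
        ((chartAt (E d) z).open_target.mem_nhds hp)).mdifferentiableAt (by simp)
    have h3 : mfderiv (𝓡 d) (𝓡 m) (F ∘ (chartAt (E d) z).symm) p =
      (mfderiv (𝓡 d) (𝓡 m) F ((chartAt (E d) z).symm p)).comp
      (mfderiv (𝓡 d) (𝓡 d) (chartAt (E d) z).symm p) := mfderiv_comp p h1 h2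
    have h4 : mfderiv (𝓡 d) (𝓡 m) G p = fderiv ℝ G p := mfderiv_eq_fderiv
    rw [← h4, hG, h3]
    rfl
  have key : ∀ᶠ p in 𝓝 p₀, ∀ u ∈ Metric.sphere (0 : E d) 1,
      0 < Q σ J z p u - κ * ‖fderiv ℝ G p u‖ ^ 2 := by
    refine IsCompact.eventually_forall_of_forall_eventually (isCompact_sphere _ _) ?_
    intro u hu
    have hu0 : u ≠ 0 := by
      rintro rfl
      simp at hu
    have hc1 : ContinuousAt (fun w : E d × E d => Q σ J z w.1 w.2) (p₀, u) :=
      Q_cont hσ hJ z hp₀t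
    have hc2 : ContinuousAt (fun w : E d × E d => fderiv ℝ G w.1) (p₀, u) :=
      ContinuousAt.comp (f := fun w : E d × E d => w.1) (x := (p₀, u)) (g := fderiv ℝ G)
        (hG3.continuousAt ((chartAt (E d) z).open_target.mem_nhds hp₀t)) continuousAt_fst
    have hc3 : ContinuousAt (fun w : E d × E d => Q σ J z w.1 w.2 -
        κ * ‖fderiv ℝ G w.1 w.2‖ ^ 2) (p₀, u) :=
      hc1.sub (continuousAt_const.mul (((hc2.clm_apply continuousAt_snd).norm).pow 2))
    refine hc3.eventually (lt_mem_nhds ?_)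
    have hA : (A z p₀ u : TangentSpace (𝓡 d) ((chartAt (E d) z).symm p₀)) ≠ 0 := by
      intro h0
      apply hu0
      have h1 : B z p₀ (A z p₀ u) = B z p₀ 0 := congrArg (B z p₀) h0
      rwa [BA z hp₀t, map_zero] at h1
    have hz' : Gt F J σ κ ((chartAt (E d) z).symm p₀) := by
      rw [hp₀s]
      exact hz
    have h2 := hz' _ hA
    dsimp only
    rw [Q_eq σ J z hp₀t, ← hnm p₀ hp₀t]
    linarith
  rw [hp₀] at key
  refine Pool.Agent.Y929.SY.ev_of_chart (d := d) ?_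
  filter_upwards [key, (chartAt (E d) z).open_target.mem_nhds (mem_chart_target (E d) z)]
    with p hp hpt v hv
  obtain ⟨u, rfl⟩ := A_surj z hpt v
  have hu0 : u ≠ 0 := by
    rintro rfl
    exact hv (map_zero _)
  have h1 := (pos_iff (fun u => Q σ J z p u - κ * ‖fderiv ℝ G p u‖ ^ 2) (fun s v => by
    rw [Q_smul, map_smul, norm_smul, mul_pow, Real.norm_eq_abs, sq_abs]
    ring)).2 hp u hu0
  rw [Q_eq σ J z hpt, ← hnm p hpt] at h1
  linarith

theorem globL [CompactSpace X] [T2Space X] {F : X → E m}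
    (hF : ContMDiff (𝓡 d) (𝓡 m) ∞ F) (hFi : Function.Injective F)
    (hFd : ∀ x, Function.Injective (mfderiv (𝓡 d) (𝓡 m) F x)) {J : End d X}
    (hJ : IsAlmostComplex J) (hol : LocHol J) :
    ∃ ρ c C : ℝ, 0 < ρ ∧ 0 < c ∧ 0 < C ∧ ∀ (x : X) (r : ℝ), 0 < r → r < ρ →
      ∃ (α : Form d X 1) (η : Form d X 2), ExL α η ∧
        (∀ y, ‖F y - F x‖ ≤ r → ∀ v : TangentSpace (𝓡 d) y,
          c * nm F y v ^ 2 ≤ η y ![v, J y v]) ∧
        ∀ (y : X) (v : TangentSpace (𝓡 d) y), -(C * r ^ 2) * nm F y v ^ 2 ≤ η y ![v, J y v] := by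
  have h := (isCompact_univ (X := X)).induction_on (p := fun S => ∃ ρ c C : ℝ, 0 < ρ ∧ 0 < c ∧
    0 < C ∧ ∀ x ∈ S, ∀ r : ℝ, 0 < r → r < ρ →
      ∃ (α : Form d X 1) (η : Form d X 2), ExL α η ∧
        (∀ y, ‖F y - F x‖ ≤ r → ∀ v : TangentSpace (𝓡 d) y,
          c * nm F y v ^ 2 ≤ η y ![v, J y v]) ∧
        ∀ (y : X) (v : TangentSpace (𝓡 d) y), -(C * r ^ 2) * nm F y v ^ 2 ≤ η y ![v, J y v])
    ⟨1, 1, 1, one_pos, one_pos, one_pos, fun x hx => absurd hx (notMem_empty x)⟩ ?_ ?_ ?_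
  · obtain ⟨ρ, c, C, h1, h2, h3, h4⟩ := h
    exact ⟨ρ, c, C, h1, h2, h3, fun x => h4 x (mem_univ x)⟩
  · rintro s t hst ⟨ρ, c, C, h1, h2, h3, h4⟩
    exact ⟨ρ, c, C, h1, h2, h3, fun x hx => h4 x (hst hx)⟩
  · rintro s t ⟨ρ, c, C, h1, h2, h3, h4⟩ ⟨ρ', c', C', h1', h2', h3', h4'⟩
    refine ⟨min ρ ρ', min c c', max C C', lt_min h1 h1', lt_min h2 h2', lt_max_of_lt_left h3,
      ?_⟩
    rintro x (hx | hx) r hr hrρ
    · obtain ⟨α, η, g1, g2, g3⟩ := h4 x hx r hr (hrρ.trans_le (min_le_left _ _))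
      refine ⟨α, η, g1, fun y hy v => ?_, fun y v => ?_⟩
      · refine le_trans ?_ (g2 y hy v)
        exact mul_le_mul_of_nonneg_right (min_le_left _ _) (sq_nonneg _)
      · refine le_trans ?_ (g3 y v)
        have : C * r ^ 2 ≤ max C C' * r ^ 2 :=
          mul_le_mul_of_nonneg_right (le_max_left _ _) (sq_nonneg _)
        exact mul_le_mul_of_nonneg_right (by linarith) (sq_nonneg _)
    · obtain ⟨α, η, g1, g2, g3⟩ := h4' x hx r hr (hrρ.trans_le (min_le_right _ _))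
      refine ⟨α, η, g1, fun y hy v => ?_, fun y v => ?_⟩
      · refine le_trans ?_ (g2 y hy v)
        exact mul_le_mul_of_nonneg_right (min_le_right _ _) (sq_nonneg _)
      · refine le_trans ?_ (g3 y v)
        have : C' * r ^ 2 ≤ max C C' * r ^ 2 :=
          mul_le_mul_of_nonneg_right (le_max_right _ _) (sq_nonneg _)
        exact mul_le_mul_of_nonneg_right (by linarith) (sq_nonneg _)
  · intro z _
    obtain ⟨ρ, c, C, h1, h2, h3, h4⟩ := locL hF hFi hFd hJ hol z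
    exact ⟨_, mem_nhdsWithin_of_mem_nhds h4, ρ, c, C, h1, h2, h3, fun x hx => hx⟩

theorem smallContent [CompactSpace X] [T2Space X] {F : X → E m}
    (hF : ContMDiff (𝓡 d) (𝓡 m) ∞ F) (hFi : Function.Injective F)
    (hFd : ∀ x, Function.Injective (mfderiv (𝓡 d) (𝓡 m) F x)) {J : End d X}
    (hJ : IsAlmostComplex J) (hol : LocHol J) :
    ∃ ε : ℝ, 0 < ε ∧ ∀ σ : Form d X 2, IsSmooth σ → IsClosedForm σ →
      ∀ (ι : Type) (x : ι → X) (r B : ι → ℝ), (∀ i, 0 < r i) → (∀ i, 0 ≤ B i) →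
      (∀ s : Finset ι, ∑ i ∈ s, (1 + B i) * r i ^ 2 ≤ ε) →
      (∀ y, (∀ v : TangentSpace (𝓡 d) y, nm F y v ^ 2 ≤ σ y ![v, J y v]) ∨
        ∃ i, ‖F y - F (x i)‖ < r i ∧
          ∀ v : TangentSpace (𝓡 d) y, -B i * nm F y v ^ 2 ≤ σ y ![v, J y v]) →
      ∃ (α : Form d X 1) (η : Form d X 2), ExL α η ∧ ∀ y, TamesAt (σ + η) J y := by
  classical
  obtain ⟨ρ, c, C, hρ, hc, hC, hL⟩ := globL hF hFi hFd hJ hol
  refine ⟨min (c / (8 * C)) (ρ ^ 2 / 4), by positivity, ?_⟩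
  intro σ hσ hσc ι x r B hr hB hsum hpos
  have hr2 : ∀ i, r i < ρ := by
    intro i
    have h1 := hsum {i}
    rw [Finset.sum_singleton] at h1
    have h2 := h1.trans (min_le_right _ _)
    have h3 : r i ^ 2 ≤ (1 + B i) * r i ^ 2 := by
      have := mul_nonneg (hB i) (sq_nonneg (r i))
      linarith
    by_contra h4
    rw [not_lt] at h4
    have h5 : ρ ^ 2 ≤ r i ^ 2 := pow_le_pow_left₀ hρ.le h4 2
    have h6 : 0 < ρ ^ 2 := by positivity
    linarith
  choose α η hex hin hall using fun i => hL (x i) (r i) (hr i) (hr2 i)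
  -- the finite subcover
  obtain ⟨U, hU⟩ : ∃ U : Option ι → Set X, U = fun o => Option.casesOn o {y | Gt F J σ (1 / 2) y}
      (fun i => {y | ‖F y - F (x i)‖ < r i} ∩ {y | Gt F J σ (-(B i + 1 / 2)) y}) := ⟨_, rfl⟩
  have hU0 : U none = {y | Gt F J σ (1 / 2) y} := by rw [hU]
  have hU1 : ∀ i, U (some i) = {y | ‖F y - F (x i)‖ < r i} ∩
      {y | Gt F J σ (-(B i + 1 / 2)) y} := fun i => by rw [hU]
  have hUo : ∀ o, IsOpen (U o) := by
    rintro (_ | i)
    · rw [hU0]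
      exact open_gt hF hJ hσ _
    · rw [hU1]
      refine IsOpen.inter ?_ (open_gt hF hJ hσ _)
      exact isOpen_lt ((hF.continuous.sub continuous_const).norm) continuous_const
  have hcov : (univ : Set X) ⊆ ⋃ o, U o := by
    intro y _
    rcases hpos y with h | ⟨i, h1, h2⟩
    · refine mem_iUnion.2 ⟨none, ?_⟩
      rw [hU0]
      intro v hv
      have h3 := nm_pos hFd hv
      refine lt_of_lt_of_le ?_ (h v)
      have : 0 < nm F y v ^ 2 := by positivity
      linarith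
    · refine mem_iUnion.2 ⟨some i, ?_⟩
      rw [hU1]
      refine ⟨h1, fun v hv => ?_⟩
      have h3 := nm_pos hFd hv
      refine lt_of_lt_of_le ?_ (h2 v)
      have : 0 < nm F y v ^ 2 := by positivity
      linarith
  obtain ⟨t, ht⟩ := isCompact_univ.elim_finite_subcover U hUo hcov
  obtain ⟨s, hs⟩ : ∃ s, s = t.eraseNone := ⟨_, rfl⟩
  refine ⟨∑ i ∈ s, (2 / c * (1 + B i)) • α i, ∑ i ∈ s, (2 / c * (1 + B i)) • η i,
    ExL.sum s fun i _ => (hex i).smul _, ?_⟩
  intro y v hv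
  have hn := nm_pos hFd hv
  have hn2 : 0 < nm F y v ^ 2 := by positivity
  have hval : (σ + ∑ i ∈ s, (2 / c * (1 + B i)) • η i) y ![v, J y v] =
      σ y ![v, J y v] + ∑ i ∈ s, 2 / c * (1 + B i) * η i y ![v, J y v] := by
    have h1 : (σ + ∑ i ∈ s, (2 / c * (1 + B i)) • η i) y ![v, J y v] =
      σ y ![v, J y v] + (∑ i ∈ s, (2 / c * (1 + B i)) • η i) y ![v, J y v] := rfl
    rw [h1, sum_apply2]
    rfl
  rw [hval]
  have hlow : ∀ s' : Finset ι, -(1 / 4 * nm F y v ^ 2) ≤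
      ∑ i ∈ s', 2 / c * (1 + B i) * η i y ![v, J y v] := by
    intro s'
    have h1 : ∀ i ∈ s', -(2 / c * C * nm F y v ^ 2) * ((1 + B i) * r i ^ 2) ≤
        2 / c * (1 + B i) * η i y ![v, J y v] := by
      intro i _
      have h2 := hall i y v
      have h3 : 0 ≤ 2 / c * (1 + B i) := by have := hB i; positivity
      have h4 := mul_le_mul_of_nonneg_left h2 h3
      refine le_trans (le_of_eq ?_) h4
      ring
    refine le_trans ?_ (Finset.sum_le_sum h1)
    rw [← Finset.mul_sum]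
    have h5 := (hsum s').trans (min_le_left _ _)
    have h6 : 0 ≤ 2 / c * C * nm F y v ^ 2 := by positivity
    have h7 := mul_le_mul_of_nonneg_left h5 h6
    have h8 : 2 / c * C * nm F y v ^ 2 * (c / (8 * C)) = 1 / 4 * nm F y v ^ 2 := by
      field_simp
      ring
    rw [h8] at h7
    linarith
  obtain ⟨o, ho, hyo⟩ := mem_iUnion₂.1 (ht (mem_univ y))
  rcases o with _ | i
  · rw [hU0] at hyo
    have h1 := hyo v hv
    have h2 := hlow s
    linarith
  · rw [hU1] at hyo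
    have his : i ∈ s := by
      rw [hs]
      exact Finset.mem_eraseNone.2 ho
    have h1 := hyo.2 v hv
    have h2 := hlow (s.erase i)
    rw [← Finset.add_sum_erase s _ his]
    have h3 := hin i y (le_of_lt hyo.1) v
    have hBi := hB i
    have h4 : 0 ≤ 2 / c * (1 + B i) := by positivity
    have h5 := mul_le_mul_of_nonneg_left h3 h4
    have h6 : 2 / c * (1 + B i) * (c * nm F y v ^ 2) = 2 * (1 + B i) * nm F y v ^ 2 := by
      field_simp
    rw [h6] at h5
    nlinarith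

end

end Pool.Agent.Q235.SZ
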