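import Pool.Agent.Q235.SQ.Main
import Pool.Agent.Q235.SZ.Iter

/-!
# Positivity up to a set of small weighted content, with singularities
-/

set_option autoImplicit false

open Set Filter Topology MeasureTheory
open scoped Manifold ContDiff Pointwise

noncomputable section

namespace Pool.Agent.Q235.SZ

open Pool.Agent.Y501.SY Pool.Agent.Y455.SY

section

variable {d m : ℕ} {X : Type} [TopologicalSpace X] [ChartedSpace (E d) X]

/-- the lower limit at `y` of the lowest value of `σ(v, J v)`, `|v| = 1`, off `K`, is at least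
`κ` -/
def Low (F : X → E m) (J : End d X) (σ : Form d X 2) (K : Set X) (κ : ℝ) (y : X) : Prop :=
  ∀ κ' : ℝ, κ' < κ → ∀ᶠ y' in 𝓝 y, y' ∉ K → ∀ v : TangentSpace (𝓡 d) y',
    κ' * nm F y' v ^ 2 ≤ σ y' ![v, J y' v]

variable [IsManifold (𝓡 d) ∞ X]

theorem smallAux [CompactSpace X] [T2Space X] {F : X → E m}
    (hF : ContMDiff (𝓡 d) (𝓡 m) ∞ F) (hFi : Function.Injective F)
    (hFd : ∀ x, Function.Injective (mfderiv (𝓡 d) (𝓡 m) F x)) {J : End d X}
    (hJ : IsAlmostComplex J) (hol : LocHol J) :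
    ∃ ε : ℝ, 0 < ε ∧ ∀ (K : Set X) (σ : Form d X 2)
      (ι : Type) (x : ι → X) (r B : ι → ℝ), (∀ i, 0 < r i) → (∀ i, 0 ≤ B i) →
      (∀ s : Finset ι, ∑ i ∈ s, (1 + B i) * r i ^ 2 ≤ ε) →
      (∀ y, Low F J σ K 1 y ∨ ∃ i, ‖F y - F (x i)‖ < r i ∧ Low F J σ K (-B i) y) →
      ∃ (α : Form d X 1) (η : Form d X 2), ExL α η ∧ LBd F J (σ + η) K := by
  classical
  obtain ⟨ρ, c, C, hρ, hc, hC, hL⟩ := globL hF hFi hFd hJ hol
  refine ⟨min (c / (8 * C)) (ρ ^ 2 / 4), by positivity, ?_⟩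
  intro K σ ι x r B hr hB hsum hpos
  have hr2 : ∀ i, r i < ρ := by
    intro i
    have h1 := hsum {i}
    rw [Finset.sum_singleton] at h1
    have h2 := h1.trans (min_le_right _ _)
    have h3 : r i ^ 2 ≤ (1 + B i) * r i ^ 2 := by
      have := mul_nonneg (hB i) (sq_nonneg (r i))
      linarith
    by_contra h4
    rw [not_lt] at h4
    have h5 : ρ ^ 2 ≤ r i ^ 2 := pow_le_pow_left₀ hρ.le h4 2
    have h6 : 0 < ρ ^ 2 := by positivity
    linarith
  choose α η hex hin hall using fun i => hL (x i) (r i) (hr i) (hr2 i)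
  -- the finite subcover
  obtain ⟨P, hP⟩ : ∃ P : ℝ → Set X, P = fun κ => {y | ∀ᶠ y' in 𝓝 y, y' ∉ K →
      ∀ v : TangentSpace (𝓡 d) y', κ * nm F y' v ^ 2 ≤ σ y' ![v, J y' v]} := ⟨_, rfl⟩
  have hPo : ∀ κ, IsOpen (P κ) := by
    intro κ
    rw [isOpen_iff_eventually]
    intro y hy
    rw [hP] at hy ⊢
    exact eventually_eventually_nhds.2 hy
  obtain ⟨U, hU⟩ : ∃ U : Option ι → Set X, U = fun o => Option.casesOn o (P (1 / 2))
      (fun i => {y | ‖F y - F (x i)‖ < r i} ∩ P (-(B i + 1 / 2))) := ⟨_, rfl⟩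
  have hU0 : U none = P (1 / 2) := by rw [hU]
  have hU1 : ∀ i, U (some i) = {y | ‖F y - F (x i)‖ < r i} ∩ P (-(B i + 1 / 2)) :=
    fun i => by rw [hU]
  have hUo : ∀ o, IsOpen (U o) := by
    rintro (_ | i)
    · rw [hU0]
      exact hPo _
    · rw [hU1]
      refine IsOpen.inter ?_ (hPo _)
      exact isOpen_lt ((hF.continuous.sub continuous_const).norm) continuous_const
  have hcov : (univ : Set X) ⊆ ⋃ o, U o := by
    intro y _
    rcases hpos y with h | ⟨i, h1, h2⟩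
    · refine mem_iUnion.2 ⟨none, ?_⟩
      rw [hU0, hP]
      exact h _ (by norm_num)
    · refine mem_iUnion.2 ⟨some i, ?_⟩
      rw [hU1, hP]
      exact ⟨h1, h2 _ (by linarith)⟩
  obtain ⟨t, ht⟩ := isCompact_univ.elim_finite_subcover U hUo hcov
  obtain ⟨s, hs⟩ : ∃ s, s = t.eraseNone := ⟨_, rfl⟩
  refine ⟨∑ i ∈ s, (2 / c * (1 + B i)) • α i, ∑ i ∈ s, (2 / c * (1 + B i)) • η i,
    ExL.sum s fun i _ => (hex i).smul _, 1 / 4, by norm_num, ?_⟩
  intro y hyK v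
  have hn2 : 0 ≤ nm F y v ^ 2 := sq_nonneg _
  have hval : (σ + ∑ i ∈ s, (2 / c * (1 + B i)) • η i) y ![v, J y v] =
      σ y ![v, J y v] + ∑ i ∈ s, 2 / c * (1 + B i) * η i y ![v, J y v] := by
    have h1 : (σ + ∑ i ∈ s, (2 / c * (1 + B i)) • η i) y ![v, J y v] =
      σ y ![v, J y v] + (∑ i ∈ s, (2 / c * (1 + B i)) • η i) y ![v, J y v] := rfl
    rw [h1, sum_apply2]
    rfl
  rw [hval]
  have hlow : ∀ s' : Finset ι, -(1 / 4 * nm F y v ^ 2) ≤
      ∑ i ∈ s', 2 / c * (1 + B i) * η i y ![v, J y v] := by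
    intro s'
    have h1 : ∀ i ∈ s', -(2 / c * C * nm F y v ^ 2) * ((1 + B i) * r i ^ 2) ≤
        2 / c * (1 + B i) * η i y ![v, J y v] := by
      intro i _
      have h2 := hall i y v
      have h3 : 0 ≤ 2 / c * (1 + B i) := by have := hB i; positivity
      have h4 := mul_le_mul_of_nonneg_left h2 h3
      refine le_trans (le_of_eq ?_) h4
      ring
    refine le_trans ?_ (Finset.sum_le_sum h1)
    rw [← Finset.mul_sum]
    have h5 := (hsum s').trans (min_le_left _ _)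
    have h6 : 0 ≤ 2 / c * C * nm F y v ^ 2 := by positivity
    have h7 := mul_le_mul_of_nonneg_left h5 h6
    have h8 : 2 / c * C * nm F y v ^ 2 * (c / (8 * C)) = 1 / 4 * nm F y v ^ 2 := by
      field_simp
      ring
    rw [h8] at h7
    linarith
  obtain ⟨o, ho, hyo⟩ := mem_iUnion₂.1 (ht (mem_univ y))
  rcases o with _ | i
  · rw [hU0, hP] at hyo
    have h1 : 1 / 2 * nm F y v ^ 2 ≤ σ y ![v, J y v] := hyo.self_of_nhds hyK v
    have h2 := hlow s
    linarith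
  · rw [hU1, hP] at hyo
    have his : i ∈ s := by
      rw [hs]
      exact Finset.mem_eraseNone.2 ho
    have h1 : -(B i + 1 / 2) * nm F y v ^ 2 ≤ σ y ![v, J y v] := hyo.2.self_of_nhds hyK v
    have h2 := hlow (s.erase i)
    rw [← Finset.add_sum_erase s _ his]
    have h3 := hin i y (le_of_lt hyo.1) v
    have hBi := hB i
    have h4 : 0 ≤ 2 / c * (1 + B i) := by positivity
    have h5 := mul_le_mul_of_nonneg_left h3 h4
    have h6 : 2 / c * (1 + B i) * (c * nm F y v ^ 2) = 2 * (1 + B i) * nm F y v ^ 2 := by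
      field_simp
    rw [h6] at h5
    nlinarith

theorem smallMain (hd : 4 ≤ d) [CompactSpace X] [T2Space X] {F : X → E m}
    (hF : ContMDiff (𝓡 d) (𝓡 m) ∞ F) (hFi : Function.Injective F)
    (hFd : ∀ x, Function.Injective (mfderiv (𝓡 d) (𝓡 m) F x)) {J : End d X}
    (hJ : IsAlmostComplex J) (hol : LocHol J) :
    ∃ ε : ℝ, 0 < ε ∧ ∀ (K T : Set X), IsClosed K →
      (∀ x₀ : X, μH[(d : ℝ) - 1] (chartAt (E d) x₀ '' (K ∩ (chartAt (E d) x₀).source)) = 0) →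
      T.Finite → T ⊆ K → ∀ σ : Form d X 2, SmoothOff σ K → IsDOff σ 0 K →
      (∀ x, x ∉ T → BddAt σ K x) → (∀ x ∈ T, LitAt σ K x) →
      ∀ (ι : Type) (x : ι → X) (r B : ι → ℝ), (∀ i, 0 < r i) → (∀ i, 0 ≤ B i) →
      (∀ s : Finset ι, ∑ i ∈ s, (1 + B i) * r i ^ 2 ≤ ε) →
      (∀ y, Low F J σ K 1 y ∨ ∃ i, ‖F y - F (x i)‖ < r i ∧ Low F J σ K (-B i) y) →
      ∀ U : Set X, IsOpen U → K ⊆ U →
      ∃ (α : Form d X 1) (η w : Form d X 2), IsSmooth α ∧ IsSmooth η ∧ IsD α η ∧ IsSmooth w ∧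
        IsClosedForm w ∧ (∀ x, TamesAt w J x) ∧ ∀ x, x ∉ U → w x = (σ + η) x := by
  obtain ⟨ε, hε, haux⟩ := smallAux hF hFi hFd hJ hol
  refine ⟨ε, hε, ?_⟩
  intro K T hK hH hT hTK σ hσ hσc hb hlit ι x r B hr hB hsum hpos U hU hKU
  obtain ⟨α, η, hex, hLB⟩ := haux K σ ι x r B hr hB hsum hpos
  have hI := Pool.Agent.Y44.SY.t_IMM
  have h1 : SmoothOff (σ + (1 : ℝ) • η) K := by
    intro V φ hV hφ hVK
    rw [pb_add, pb_smul]
    exact (hσ V φ hV hφ hVK).add (contDiffOn_const.smul (hex.s2 V φ hV hφ))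
  have h2 : IsDOff (σ + (1 : ℝ) • η) 0 K := by
    intro V φ hV hφ hVK p hp
    have h1 : DifferentiableAt ℝ (pb φ σ) p :=
      ((hσ V φ hV hφ hVK).contDiffAt (hV.mem_nhds hp)).differentiableAt (by simp)
    have h2 : DifferentiableAt ℝ (pb φ ((1 : ℝ) • η)) p := (hex.s2.smul 1).diffAt hV hφ hp
    rw [pb_add, extDeriv_add h1 h2, hσc V φ hV hφ hVK p hp, pb_smul, extDeriv_smul,
      hex.closed V φ hV hφ p hp, pb_zero]
    simp
  have h3 : LBd F J (σ + (1 : ℝ) • η) K := by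
    rw [one_smul]
    exact hLB
  obtain ⟨K', w', g1, g2, g3, g4, g5, g6, g7⟩ := iter hd hF hFd hJ hU hT.toFinset K
    (σ + (1 : ℝ) • η)
    (fun x _ => by
      obtain ⟨a, L, r, ha, hr, h⟩ := hol x
      refine ⟨a, |L|, ha, abs_nonneg _, ?_⟩
      filter_upwards [Metric.ball_mem_nhds (chartAt (E d) x x) hr] with p hp v
      refine (h p hp _ (Metric.mem_ball_self hr) v).trans ?_
      have := le_abs_self L
      gcongr) hK hKU hH h1 h2 h3
    (fun x hx => ⟨hTK (hT.mem_toFinset.1 hx),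
      LitAt_add hex.s2 1 (hlit x (hT.mem_toFinset.1 hx))⟩)
    (fun x hx => BdF_of hI hF hFd hJ hex.s2 1 (hb x fun h => hx (hT.mem_toFinset.2 h)))
  obtain ⟨δ, hδ, hbd⟩ := unif (isCompact_univ (X := X))
    (fun δ y => y ∉ K' → ∀ v u : TangentSpace (𝓡 d) y,
      δ * |w' y ![v, u]| ≤ nm F y v * nm F y u)
    (fun ε ε' y hle hp hy v u => by
      refine le_trans ?_ (hp hy v u)
      exact mul_le_mul_of_nonneg_right hle (abs_nonneg _))
    (fun x _ => g6 x)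
  have hUT : UT F J w' K' := by
    refine ⟨g3, g4, ⟨1 / δ, by positivity, fun x hx v u => ?_⟩, g5⟩
    have h4 := hbd x (mem_univ x) hx v u
    rw [mul_assoc, one_div, ← div_eq_inv_mul, le_div_iff₀ hδ]
    linarith
  obtain ⟨w, e1, e2, e3, e4⟩ := finish (by omega) hF hFd hJ g1
    (fun x₀ => measure_mono_null (image_mono (inter_subset_inter_left _ g2)) (hH x₀)) hU
    (g2.trans hKU) hUT
  refine ⟨α, η, w, hex.s1, hex.s2, hex.isD, e1, e2, e3, fun x hx => (e4 x hx).trans ?_⟩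
  rw [g7 x hx, one_smul]

end

end Pool.Agent.Q235.SZ
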